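import Pool.Agent.H24.OW.Pha
import Pool.Agent.H73.OW.Two

/-!
# [H24 OW KA] THEOREM OW (MP_b39724_nt, p = 2, every class), (b3): the functionals `ka_j` of the own letter group

`ev : St →* S`, `f : Pt →* P`, `Y : AD St Pt J V` the data with own letters, `ze j : Dz S q d × Dz S q (d+1)` the two layer functionals of the configuration, `psi : St → ZMod q` (`PK` for `M = d + 1`).
`ka .. j u = ze_j (ev u) + psi (Dj Y τ x j u)`.
* `ka_add`: additive on `L` if `L ≤ gam_d` (`gam_(d+1)` at the letters which are not `pp`) and `dl (t j) (x j) L ⊆ K`.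
* `ka_pp`: `0` at `u ∈ gam_(d+1)` for a letter `pp` (fixed letters: `u ∈ K`; roots: `u ∈ K_i ∩ gam_(d+1)`), if `rs (ze j).1 (ev u) = - psi ⁅y_j, u⁆`.
* `ka_bb`: `0` at `u ∈ K ∩ gam_(d+2)` for the other letters, if `rs (ze j).2 = ζ_j (κ ∘ f ∘ ph)` and `psi (g⁻¹ u) - psi u = κ (f g) (ev u)`.
* `hchi`: the hypothesis of `ka_pp` from the form `B` (QB of H88/OW).
-/

set_option autoImplicit false

open scoped commutatorElement
open scoped Classical

noncomputable section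

namespace H24.OW

open H1.S3 H73.S3 H73.OW

open H71.S3 (cjl cjl_il cjl_mem cjl_gk)

variable {S St P Pt : Type} [Group S] [Group St] [Group P] [Group Pt] [MulDistribMulAction P S]
  [MulDistribMulAction Pt St] {J V : Type} {q d : ℕ}

/-- the functional of the letter `j` -/
def ka (ev : St →* S) (psi : St → ZMod q) (Y : AD St Pt J V) (τ : V → St) (x : J → SP St Pt)
    (ze : J → Dz S q d × Dz S q (d + 1)) (j : J) (u : St) : ZMod q :=
  (if Y.pp j then (ze j).1.ap (gz d (ev u)) else (ze j).2.ap (gz (d + 1) (ev u))) +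
    psi (Dj Y τ x j u)

theorem gm_ev (ev : St →* S) {m : ℕ} {u : St} (hu : u ∈ gm St m) : ev u ∈ gm S m := by
  unfold gm at hu ⊢
  have h1 : ((⊤ : Subgroup St).lowerCentralSeries (m - 1)).map ev ≤
      (⊤ : Subgroup S).lowerCentralSeries (m - 1) := by
    rw [Subgroup.map_lowerCentralSeries]
    exact Subgroup.lowerCentralSeries_mono _ le_top
  exact h1 (Subgroup.mem_map_of_mem ev hu)

variable (ev : St →* S) {K : Subgroup St} {psi : St → ZMod q} (Y : AD St Pt J V) (τ : V → St)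
  (x : J → SP St Pt) (ze : J → Dz S q d × Dz S q (d + 1))

/-- additivity -/
theorem ka_add (h : PK Pt K psi (d + 1)) (hd : 2 ≤ d) {L : Subgroup St} (j : J)
    (hL : L ≤ gm St (if Y.pp j then d else d + 1)) (hD : ∀ u ∈ L, dl (Y.t j) (x j) u ∈ K) {u v : St} (hu : u ∈ L)
    (hv : v ∈ L) : ka ev psi Y τ x ze j (u * v) = ka ev psi Y τ x ze j u + ka ev psi Y τ x ze j v := by
  have hLd : L ≤ gm St (d + 1 - 1) := by
    rw [Nat.add_sub_cancel]
    refine hL.trans ?_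
    split_ifs
    · exact le_rfl
    · exact gm_anti d
  have h1 := th_add h (by omega) hLd (Y.t j) (x j) hD (cn Y τ x j) hu hv
  unfold ka Dj
  rw [h1, map_mul]
  have hu' := hL hu
  have hv' := hL hv
  split_ifs with hj
  · rw [if_pos hj] at hu' hv'
    rw [gz_mul (gm_ev ev hu') (gm_ev ev hv'), map_add]
    abel
  · rw [if_neg hj] at hu' hv'
    rw [gz_mul (gm_ev ev hu') (gm_ev ev hv'), map_add]
    abel

/-- the value at a letter `pp` -/
theorem ka_pp (h : PK Pt K psi (d + 1)) {j : J} (hj : Y.pp j) (hpb : Y.bl (Y.pj j) = [j])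
    (hpt : Y.t j = il (Y.y j)) (hr : ∀ v ∈ Y.l, (Y.bk x v).right = 1) (hx : (x j).right = 1) {u : St}
    (hu : u ∈ gm St (d + 1)) (h1 : ⁅Y.y j, u⁆ ∈ K) (h2 : dl (Y.t j) (x j) u ∈ K)
    (hχ : (ze j).1.rs.ap (gk (d + 1) (ev u)) = -psi ⁅Y.y j, u⁆) : ka ev psi Y τ x ze j u = 0 := by
  unfold ka Dj
  rw [if_pos hj, ← rs_gk _ (gm_ev ev hu), hχ]
  have e2 : cn Y τ x j = il (cn Y τ x j).left := by
    refine il_lf ?_
    unfold cn
    rw [SemidirectProduct.mul_right, SemidirectProduct.mul_right, pf_rt Y τ x hr, one_mul, hpb]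
    have e3 : pre [(j : J)] j = [] := by
      unfold pre
      rw [List.takeWhile_cons, decide_eq_false (fun h => h rfl)]
      rfl
    rw [e3]
    show (1 : Pt) * (1 : SP St Pt).right = 1
    rw [one_mul]
    rfl
  have e6 := il_lf hx
  rw [hpt, e6] at h2
  rw [e2, hpt, e6, pp_val h (by omega) _ _ _ hu h1 h2, neg_add_cancel]

/-- the value at the other letters on the top layer -/
theorem ka_bb (h : PK Pt K psi (d + 1)) {f : Pt →* P} {j : J} (hj : ¬Y.pp j)
    (hr : ∀ v ∈ Y.l, (Y.bk x v).right = 1)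
    (hx : ∀ i, Y.t i = 1 ∨ (x i).right = Y.ph (Y.W i)) (hxj : (x j).right = Y.ph (Y.W j)) {u : St} (hu : u ∈ K)
    (hu1 : u ∈ gm St (d + 2)) {κ : P → Du S q (d + 1 + 1)}
    (hκ : ∀ g ∈ Y.ph.range, psi (g⁻¹ • u) - psi u = (κ (f g)).ap (gk (d + 2) (ev u)))
    (hξ : (ze j).2.rs = zeta (fun w => κ (f (Y.ph w))) FreeGroup.of Y.W (Y.bl (Y.pj j)) j) :
    ka ev psi Y τ x ze j u = 0 := by
  unfold ka Dj
  rw [if_neg hj, ← rs_gk _ (gm_ev ev hu1), hξ, xi_bot h (Y.t j) (x j) (cn Y τ x j) hu hu1]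
  obtain ⟨w, hw⟩ : ∃ w, w = wd FreeGroup.of Y.W (pre (Y.bl (Y.pj j)) j) := ⟨_, rfl⟩
  have e0 : (cn Y τ x j).right = Y.ph w := by
    unfold cn
    rw [SemidirectProduct.mul_right, SemidirectProduct.mul_right, pf_rt Y τ x hr, one_mul, bk_rt Y x hx, hw]
    show (1 : Pt) * _ = _
    rw [one_mul]
  have et : (Y.t j).right = Y.ph (FreeGroup.of j) := (ph_of Y j).symm
  have e1 : (cn Y τ x j * Y.t j).right = Y.ph (w * FreeGroup.of j) := by
    rw [SemidirectProduct.mul_right, e0, et, map_mul]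
  have e2 : (cn Y τ x j * ⁅Y.t j, x j⁆).right = Y.ph (w * ⁅FreeGroup.of j, Y.W j⁆) := by
    rw [SemidirectProduct.mul_right, e0, map_mul, map_commutatorElement]
    simp only [commutatorElement_def, SemidirectProduct.mul_right, SemidirectProduct.inv_right, et, hxj]
  have h1 := hκ (Y.ph (w * ⁅FreeGroup.of j, Y.W j⁆)⁻¹) ⟨_, rfl⟩
  have h2 := hκ (Y.ph (w * FreeGroup.of j)⁻¹) ⟨_, rfl⟩
  have h3 : (zeta (fun w => κ (f (Y.ph w))) FreeGroup.of Y.W (Y.bl (Y.pj j)) j).ap (gk (d + 2) (ev u)) =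
      (κ (f (Y.ph (w * ⁅FreeGroup.of j, Y.W j⁆)⁻¹))).ap (gk (d + 2) (ev u)) -
        (κ (f (Y.ph (w * FreeGroup.of j)⁻¹))).ap (gk (d + 2) (ev u)) := by
    unfold zeta
    rw [← hw]
    exact ap_sub _ _ _
  rw [e1, e2]
  refine Eq.trans (congrArg (fun t => t + _) h3) ?_
  rw [← h1, ← h2, map_inv, map_inv, inv_inv, inv_inv]
  abel

/-- the hypothesis of `ka_pp` from the form `B` -/
theorem hchi {Bf : ∀ i j : ℕ, Gr S i →+ Gr S j →+ ZMod q} {j : J} {u : St} {y : S} {X : Du S q (d + 1)}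
    (hB : psi ⁅Y.y j, u⁆ = -Bf 1 (d + 1) (gk 1 (ev (Y.y j))) (gk (d + 1) (ev u)))
    (hy : ev (Y.y j) = y) (gen : ∀ z, Bf 1 (d + 1) (gk 1 y) z = X.ap z) (hX : (ze j).1.rs = X) :
    (ze j).1.rs.ap (gk (d + 1) (ev u)) = -psi ⁅Y.y j, u⁆ := by
  rw [hB, hy, gen, hX, neg_neg]

end H24.OW
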