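import Pool.Agent.H71.S3.Sdp
import Pool.Agent.H73.S3.Sur

/-!
# [H24 OW RCH] THEOREM OW (MP_b39724_nt, p = 2, every class), part (c): THE CHANGE OF THE RELATION, exact form

Abstract frame `AD` of H73/S3/Al, any group `S`. `K` a subgroup of `S` which is stable under conjugation in `SP S P`; `psi : S → R` additive on `K` (no quotient group is used).
* `dl t x u = (t u t⁻¹) ([t,x] u⁻¹ [t,x]⁻¹)`: `[t, u x] = dl t x u * [t, x]`.
* `AD.pf τ x v`: the product of the earlier places. `AD.cn τ x j`: all prefixes of the letter `j`. `AD.Dj τ x j u`: `dl` at the letter `j`, conjugated by `cn`.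
* `zb b z = z (b z⁻¹ b⁻¹)`: `z b z⁻¹ = zb b z * b`.
* `rch`: if `dl (t j) (x j) (u j) ∈ K` for all letters, `zb (bk x v) (z v) ∈ K` for all places, `RR τ x = 1 = RR (τ z) (mv u x)`, then
  `∑_j psi (Dj τ x j (u j)) + ∑_v psi (zb at v, conjugated) = 0`.
-/

set_option autoImplicit false

open scoped commutatorElement
open scoped Classical

noncomputable section

namespace H24.OW

open H1.S3 H73.S3

open H71.S3 (cjl cjl_il cjl_mem cjl_gk)

variable {S P : Type} [Group S] [Group P] [MulDistribMulAction P S] {J V : Type}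

/-- `[t, u x] = dl t x u * [t, x]` -/
def dl (t x : SP S P) (u : S) : S := cjl t u * cjl ⁅t, x⁆ u⁻¹

/-- `z b z⁻¹ = zb b z * b` -/
def zb (b : SP S P) (z : S) : S := z * cjl b z⁻¹

theorem cjl_mul (g : SP S P) (u v : S) : cjl g (u * v) = cjl g u * cjl g v := by
  refine il_inj (P := P) ?_
  rw [il_mul, ← cjl_il, ← cjl_il, ← cjl_il, il_mul]
  group

theorem cjl_inv (g : SP S P) (u : S) : cjl g u⁻¹ = (cjl g u)⁻¹ := by
  refine il_inj (P := P) ?_
  rw [il_inv, ← cjl_il, ← cjl_il, il_inv]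
  group

theorem cjl_cjl (g h : SP S P) (u : S) : cjl g (cjl h u) = cjl (g * h) u := by
  refine il_inj (P := P) ?_
  rw [← cjl_il, ← cjl_il, ← cjl_il]
  group

theorem cjl_one (g : SP S P) : cjl g (1 : S) = 1 := by
  refine il_inj (P := P) ?_
  rw [← cjl_il, il_one]
  group

theorem one_cjl (u : S) : cjl (1 : SP S P) u = u := by
  refine il_inj (P := P) ?_
  rw [← cjl_il]
  group

theorem il_cjl (s u : S) : cjl (il s : SP S P) u = s * u * s⁻¹ := by
  refine il_inj (P := P) ?_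
  rw [← cjl_il, il_mul, il_mul, il_inv]

theorem dl_il (t x : SP S P) (u : S) : ⁅t, il u * x⁆ = il (dl t x u) * ⁅t, x⁆ := by
  unfold dl
  rw [il_mul, ← cjl_il, ← cjl_il, il_inv, commutatorElement_def, commutatorElement_def]
  group

theorem zb_il (b : SP S P) (z : S) : cj z b = il (zb b z) * b := by
  unfold zb cj
  rw [il_mul, ← cjl_il, il_inv]
  group

theorem dl_one (t x : SP S P) : dl t x (1 : S) = 1 := by
  unfold dl
  rw [inv_one, cjl_one, cjl_one, mul_one]

/-- the product of the earlier places -/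
def pf (X : AD S P J V) (τ : V → S) (x : J → SP S P) (v : V) : SP S P :=
  ((pre X.l v).map fun w => cj (τ w) (X.bk x w)).prod

/-- all prefixes of the letter `j` -/
def cn (X : AD S P J V) (τ : V → S) (x : J → SP S P) (j : J) : SP S P :=
  pf X τ x (X.pj j) * il (τ (X.pj j)) * wd X.t x (pre (X.bl (X.pj j)) j)

/-- the part of the letter `j` in the change of the relation -/
def Dj (X : AD S P J V) (τ : V → S) (x : J → SP S P) (j : J) (u : S) : S :=
  cjl (cn X τ x j) (dl (X.t j) (x j) u)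

section rch

variable {R : Type} [AddCommGroup R] {K : Subgroup S} {psi : S → R}

/-- a product of changed factors -/
theorem prod_ch {I : Type} (hK : ∀ (g : SP S P), ∀ u ∈ K, cjl g u ∈ K)
    (hadd : ∀ u ∈ K, ∀ v ∈ K, psi (u * v) = psi u + psi v) (b b' : I → SP S P) (e : I → S) (l : List I)
    (hl : l.Nodup) (he : ∀ i ∈ l, e i ∈ K ∧ b' i = il (e i) * b i) :
    ∃ E ∈ K, (l.map b').prod = il E * (l.map b).prod ∧ ∀ g : SP S P, psi (cjl g E) =
      (l.map fun i => psi (cjl (g * ((pre l i).map b).prod) (e i))).sum := by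
  have h0 : psi 1 = 0 := by
    have h := hadd 1 (one_mem K) 1 (one_mem K)
    rw [mul_one] at h
    exact left_eq_add.1 h
  induction l with
  | nil =>
    refine ⟨1, one_mem K, ?_, fun g => ?_⟩
    · rw [il_one, one_mul]
      rfl
    · rw [cjl_one, h0]
      rfl
  | cons i l ih =>
    have hn := List.nodup_cons.1 hl
    obtain ⟨E, hE, h1, h2⟩ := ih hn.2 fun j hj => he j (List.mem_cons_of_mem _ hj)
    obtain ⟨hi1, hi2⟩ := he i List.mem_cons_self
    refine ⟨e i * cjl (b i) E, mul_mem hi1 (hK _ _ hE), ?_, fun g => ?_⟩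
    · rw [List.map_cons, List.map_cons, List.prod_cons, List.prod_cons, h1, hi2, il_mul, ← cjl_il]
      group
    · rw [cjl_mul, hadd _ (hK _ _ hi1) _ (hK _ _ (hK _ _ hE)), cjl_cjl, h2, List.map_cons, List.sum_cons]
      have h3 : pre (i :: l) i = [] := by
        unfold pre
        rw [List.takeWhile_cons, decide_eq_false (fun h => h rfl)]
        rfl
      rw [h3, List.map_nil, List.prod_nil, mul_one]
      congr 2
      refine List.map_congr_left fun j hj => ?_
      have h4 : j ≠ i := fun h => hn.1 (h ▸ hj)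
      have h5 : pre (i :: l) j = i :: pre l j := by
        unfold pre
        rw [List.takeWhile_cons, decide_eq_true h4.symm]
        rfl
      rw [h5, List.map_cons, List.prod_cons, mul_assoc]

/-- THE CHANGE OF THE RELATION -/
theorem rch (X : AD S P J V) (hK : ∀ (g : SP S P), ∀ u ∈ K, cjl g u ∈ K)
    (hadd : ∀ u ∈ K, ∀ v ∈ K, psi (u * v) = psi u + psi v) (hnd : X.l.Nodup)
    (hbn : ∀ v ∈ X.l, (X.bl v).Nodup) (hbp : ∀ v, ∀ j ∈ X.bl v, X.pj j = v)
    (hjl : ∀ j ∈ X.Jf, X.pj j ∈ X.l ∧ j ∈ X.bl (X.pj j)) (τ z : V → S) (x : J → SP S P) (u : X.Jf → S)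
    (hD : ∀ j : X.Jf, dl (X.t j) (x j) (u j) ∈ K)
    (hz : ∀ v ∈ X.l, zb (X.bk x v) (z v) ∈ K)
    (hzi : ∀ v ∈ X.l, ∀ g : SP S P, ∀ w ∈ K, psi (cjl (g * il (z v)) w) = psi (cjl g w))
    (h1 : X.RR τ x = 1) (h2 : X.RR (fun v => τ v * z v) (X.mv u x) = 1) :
    ∑ j : X.Jf, psi (Dj X τ x j (u j)) +
      (X.l.map fun v => psi (cjl (pf X τ x v * il (τ v)) (zb (X.bk x v) (z v)))).sum = 0 := by
  have h0 : psi 1 = 0 := by
    have h := hadd 1 (one_mem K) 1 (one_mem K)
    rw [mul_one] at h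
    exact left_eq_add.1 h
  -- the changes of all letters
  obtain ⟨U, hU⟩ : ∃ U : J → S, ∀ j, U j = if h : j ∈ X.Jf then u ⟨j, h⟩ else 1 := ⟨_, fun _ => rfl⟩
  have hmv : ∀ j, X.mv u x j = il (U j) * x j := by
    intro j
    unfold AD.mv
    rw [hU j]
    split_ifs
    · rfl
    · rw [il_one, one_mul]
  have hUD : ∀ j, dl (X.t j) (x j) (U j) ∈ K := by
    intro j
    rw [hU j]
    split_ifs with h
    · exact hD ⟨j, h⟩
    · rw [dl_one]
      exact one_mem K
  -- the blocks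
  have hbk : ∀ v ∈ X.l, ∃ E ∈ K, X.bk (X.mv u x) v = il E * X.bk x v ∧ ∀ g : SP S P, psi (cjl g E) =
      ((X.bl v).map fun j => psi (cjl (g * wd X.t x (pre (X.bl v) j)) (dl (X.t j) (x j) (U j)))).sum := by
    intro v hv
    exact prod_ch hK hadd (fun j => ⁅X.t j, x j⁆) (fun j => ⁅X.t j, X.mv u x j⁆)
      (fun j => dl (X.t j) (x j) (U j)) (X.bl v) (hbn v hv) fun j _ => ⟨hUD j, by rw [hmv j, dl_il]⟩
  obtain ⟨E, hE⟩ : ∃ E : V → S, ∀ v ∈ X.l, E v ∈ K ∧ X.bk (X.mv u x) v = il (E v) * X.bk x v ∧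
      ∀ g : SP S P, psi (cjl g (E v)) =
      ((X.bl v).map fun j => psi (cjl (g * wd X.t x (pre (X.bl v) j)) (dl (X.t j) (x j) (U j)))).sum := by
    refine ⟨fun v => if h : v ∈ X.l then (hbk v h).choose else 1, fun v hv => ?_⟩
    have h := (hbk v hv).choose_spec
    beta_reduce
    rw [dif_pos hv]
    exact ⟨h.1, h.2⟩
  obtain ⟨F, hF, hF1, hF2⟩ := prod_ch hK hadd (fun v => cj (τ v) (X.bk x v))
    (fun v => cj (τ v * z v) (X.bk (X.mv u x) v))
    (fun v => cjl (il (τ v * z v) : SP S P) (E v) * cjl (il (τ v) : SP S P) (zb (X.bk x v) (z v))) X.l hnd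
    (fun v hv => by
      obtain ⟨e1, e2, -⟩ := hE v hv
      refine ⟨mul_mem (hK _ _ e1) (hK _ _ (hz v hv)), ?_⟩
      rw [e2, il_mul (P := P) (cjl _ _), ← cjl_il, ← cjl_il]
      have e3 := zb_il (X.bk x v) (z v)
      have e4 : (il (zb (X.bk x v) (z v)) : SP S P) = cj (z v) (X.bk x v) * (X.bk x v)⁻¹ := by
        rw [e3, mul_inv_cancel_right]
      rw [e4]
      unfold cj
      rw [il_mul (τ v) (z v)]
      group)
  have h3 : (il F : SP S P) = 1 := by
    have e : X.RR (fun v => τ v * z v) (X.mv u x) = il F * X.RR τ x := hF1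
    rw [h1, h2, mul_one] at e
    exact e.symm
  have h4 : F = 1 := il_inj (P := P) (h3.trans il_one.symm)
  have h5 := hF2 1
  rw [h4, cjl_one, h0] at h5
  have h6 : ∑ j : X.Jf, psi (Dj X τ x j (u j)) = ∑ j : X.Jf, psi (Dj X τ x j (U j)) := by
    refine Finset.sum_congr rfl fun j _ => ?_
    rw [hU j, dif_pos j.2]
  have h7 := sum_bl X hnd hbn hbp hjl (fun j => psi (Dj X τ x j (U j))) fun j hj => by
    unfold Dj
    rw [hU j, dif_neg hj, dl_one, cjl_one, h0]
  rw [h6, ← h7, ← List.sum_map_add, h5]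
  congr 1
  refine List.map_congr_left fun v hv => ?_
  obtain ⟨e1, -, e3⟩ := hE v hv
  rw [one_mul, cjl_mul, hadd _ (hK _ _ (hK _ _ e1)) _ (hK _ _ (hK _ _ (hz v hv))), cjl_cjl, cjl_cjl]
  congr 1
  have e4 : ((pre X.l v).map fun w => cj (τ w) (X.bk x w)).prod * (il (τ v * z v) : SP S P) =
      pf X τ x v * il (τ v) * il (z v) := by
    rw [il_mul]
    unfold pf
    group
  rw [e4, hzi v hv _ _ e1, e3]
  congr 1
  refine List.map_congr_left fun j hj => ?_
  unfold Dj cn
  rw [hbp v j hj]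

end rch

end H24.OW
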