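import Pool.Agent.H93.OW.Bxs
import Pool.Agent.H62.OW.Okw

/-!
# [H24 OW GDN] MP_b39724_nt, THEOREM OW, (c9): the fixed part is good if the summand is not zero

* `zg_dis`: the large split places are disjoint from the exceptional places.
* `kk_kx`: the crossed homomorphism `kk η` belongs to `η` if there is one.
* `gdb_up`: if there is a crossed homomorphism for the configuration `up b v l` and `FX` is not zero there, then the fixed part `b` is good (`Gdb`), for every list of labels. `gdb_okw`: the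
  same with the frame `AD.Okw` instead of the existence.
* `ci_mk`: a cell identity `CI` from a family which is not known to be good: only the indices with a nonzero summand have to be good.
-/

set_option autoImplicit false

open scoped NumberField commutatorElement
open IsDedekindDomain
open scoped Classical

noncomputable section

namespace H24.OW

open H63.MA H38.BB H38.BG H57.PC H57.BRA H77.WD H77.WE H77.PC3 H35.CF H35.UB H77.S3 H71.S3 H1.S3
  H93.BY H24.RK H73.S3 H93.OW H62.OW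
open H93.BX (Mis)

attribute [local instance 50] Fintype.ofFinite

theorem kk_kx {S P : Type} [Group S] [Group P] [MulDistribMulAction P S] {J V : Type} {q m : ℕ}
    (Y : AD S P J V) (η : Y.Jf → Du S q m × Du S q (m + 1)) (h : ∃ k, Y.Kx η k) :
    Y.Kx η (Y.kk η) := by
  unfold AD.kk
  rw [dif_pos h]
  exact h.choose_spec

variable {K : Type} [Field K] [NumberField K] {Ω : Type} [Field Ω] [Algebra K Ω]
  {p N : ℕ} {ζ : K} {D : RD0 K p ζ} {Q : DP K Ω} {A : GS D Ω} {P : Type} [Group P]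
  {c : CL p N P} {S : Type} [Group S] [MulDistribMulAction P S] {n q : ℕ}

theorem zg_dis (D : RD0 K p ζ) (Z E : Finset (Pl K)) : Disjoint (Zg D Z E) E := by
  unfold Zg
  rw [Finset.disjoint_left]
  intro v hv hv'
  rw [Finset.mem_filter, Finset.mem_sdiff] at hv
  exact hv.1.2 hv'

/-- the fixed part is good -/
theorem gdb_up (G : SG c S) (B : SD D Q A) (X : FD A P S) (W : WF A) (T : ℝ) (Zc : Finset (Pl K))
    (hZE : Disjoint Zc X.E) (τ₀ : Pl K → S) (e₀ : Pl K ⊕ Fin A.g → El S P q (n + 1))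
    (l : Fin (n + 1 + 1) → Elb c S q (n + 1)) (b : Pl K → Option (Elb c S q (n + 1)))
    (v : Fin (n + 1 + 1) → Pl K) (hv : v ∈ H35.CF.Fr Zc (PPc X W T) b (n + 1 + 1))
    (hk : ∃ k, (adx G B X W T Zc (up b v l)).Kx ((adx G B X W T Zc (up b v l)).et
      (ef e₀ (up b v l))) k)
    (h0 : FX G B X W T Zc τ₀ e₀ (up b v l) ≠ 0) :
    Gdb G B X W T Zc e₀ ((adx G B X W T Zc b).Qp (kx G B X W T Zc e₀ b)) b := by
  have hkc := (kx_iff G B X W T Zc hZE e₀ l b v hv _).1 (kk_kx _ _ hk)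
  have hke : (adx G B X W T Zc (up b v l)).kk ((adx G B X W T Zc (up b v l)).et
      (ef e₀ (up b v l))) = kx G B X W T Zc e₀ b := kx_up G B X W T Zc hZE e₀ l b v hv
  rw [hke] at hkc
  refine ⟨hkc, ?_, ?_, rfl⟩
  · have h1 : ∀ w ∈ W.l, kx G B X W T Zc e₀ (up b v l) (wd FreeGroup.of
        (adx G B X W T Zc (up b v l)).W ((adx G B X W T Zc (up b v l)).bl w)) = 0 := by
      by_contra hc
      refine h0 ?_
      unfold FX
      rw [if_neg]
      exact fun hh => hc hh.1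
    rw [kx_up G B X W T Zc hZE e₀ l b v hv] at h1
    exact h1
  · have h1 : ∀ w ∈ sp Zc (up b v l), H73.S3.kf (up b v l) w =
        if PPc X W T w then kx G B X W T Zc e₀ (up b v l) (W.Wv w) else 0 := by
      by_contra hc
      refine h0 ?_
      unfold FX
      rw [if_neg]
      exact fun hh => hc hh.2
    intro w hw hpp
    have hv' := mem_fr.1 hv
    have hne : ∀ k, v k ≠ w := by
      rintro k rfl
      exact (mem_sp.1 hw).2 (hv'.1 k).2.2
    have h2 : up b v l w = b w := H35.CF.up_ne b v l w hne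
    have h3 := h1 w (by
      rw [mem_sp, h2]
      exact mem_sp.1 hw)
    rw [if_neg hpp] at h3
    unfold H73.S3.kf at h3 ⊢
    rw [h2] at h3
    exact h3

/-- the same with the frame -/
theorem gdb_okw [Finite S] [Finite P] [NeZero q] (hp : p.Prime) (G : SG c S) (B : SD D Q A)
    (X : FD A P S) (W : WF A) (T : ℝ) (Zc : Finset (Pl K)) (hZE : Disjoint Zc X.E)
    (τ₀ : Pl K → S) (e₀ : Pl K ⊕ Fin A.g → El S P q (n + 1))
    (l : Fin (n + 1 + 1) → Elb c S q (n + 1)) (b : Pl K → Option (Elb c S q (n + 1)))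
    (v : Fin (n + 1 + 1) → Pl K) (hv : v ∈ H35.CF.Fr Zc (PPc X W T) b (n + 1 + 1)) {k Mw : ℕ}
    (hX : (adx G B X W T Zc (up b v l)).Okw p k Mw q)
    (h0 : FX G B X W T Zc τ₀ e₀ (up b v l) ≠ 0) :
    Gdb G B X W T Zc e₀ ((adx G B X W T Zc b).Qp (kx G B X W T Zc e₀ b)) b :=
  gdb_up G B X W T Zc hZE τ₀ e₀ l b v hv (kx_exw _ hp hX (n + 1) _) h0

/-- a cell identity from a family of which only the indices with a nonzero summand are good -/
theorem ci_mk (G : SG c S) (B : SD D Q A) (X : FD A P S) (W : WF A) (T : ℝ) (Zc : Finset (Pl K))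
    (hZE : Disjoint Zc X.E) (L : ℝ) (g : ℕ) {Λ : Type} (b : Pl K → Option Λ)
    (F : (Fin (n + 1 + 1) → Pl K) → ℂ) {Γ : Type} (I : Finset Γ) (ρ : Γ → ℂ)
    (l : Γ → Fin (n + 1 + 1) → Elb c S q (n + 1)) (b' : Γ → Pl K → Option (Elb c S q (n + 1)))
    (τ : Γ → Pl K → S) (e : Γ → Pl K ⊕ Fin A.g → El S P q (n + 1))
    (h : Γ → Fin (n + 1 + 1) → (Fin (n + 1 + 1) → Pl K) → ℂ)
    (hI : (I.card : ℝ) ≤ L ^ ((sp Zc b).card + X.E.card + g))
    (h1 : ∀ γ ∈ I, ‖ρ γ‖ ≤ 1 ∧ sp Zc (b' γ) = sp Zc b ∧ Mis (h γ))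
    (hg : ∀ γ ∈ I, ∀ v ∈ H35.CF.Fr Zc (PPc X W T) b (n + 1 + 1), ρ γ ≠ 0 → (∀ k, h γ k v ≠ 0) →
      FX G B X W T Zc (τ γ) (e γ) (up (b' γ) v (l γ)) ≠ 0 →
      (∃ k, (adx G B X W T Zc (up (b' γ) v (l γ))).Kx ((adx G B X W T Zc (up (b' γ) v (l γ))).et
        (ef (e γ) (up (b' γ) v (l γ)))) k) ∧
      ¬Ulk ((adx G B X W T Zc (b' γ)).Qp (kx G B X W T Zc (e γ) (b' γ)))
        (fun k => G.y (l γ k).1) (fun k => (l γ k).2.2.1.1.1) ∧
      ∀ k, ∀ z : Gr S (n + 1), ((l γ k).2.2.2).ap (br (n + 1) (G.y (l γ k).1) z) = 0)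
    (hF : ∀ v ∈ H35.CF.Fr Zc (PPc X W T) b (n + 1 + 1),
      F v = ∑ γ ∈ I, ρ γ * (FX G B X W T Zc (τ γ) (e γ) (up (b' γ) v (l γ)) * ∏ k, h γ k v)) :
    CI G B X W T Zc q n L g b F := by
  obtain ⟨Gd, hGd⟩ : ∃ Gd : Γ → Prop, Gd = fun γ =>
      Gdb G B X W T Zc (e γ) ((adx G B X W T Zc (b' γ)).Qp (kx G B X W T Zc (e γ) (b' γ)))
        (b' γ) ∧
      ¬Ulk ((adx G B X W T Zc (b' γ)).Qp (kx G B X W T Zc (e γ) (b' γ)))
        (fun k => G.y (l γ k).1) (fun k => (l γ k).2.2.1.1.1) ∧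
      ∀ k, ∀ z : Gr S (n + 1), ((l γ k).2.2.2).ap (br (n + 1) (G.y (l γ k).1) z) = 0 := ⟨_, rfl⟩
  have hL : (I.filter Gd).card ≤ I.card := Finset.card_filter_le _ _
  refine ⟨Γ, I.filter Gd, ρ, l, b', τ, e,
    fun γ => (adx G B X W T Zc (b' γ)).Qp (kx G B X W T Zc (e γ) (b' γ)), h,
    le_trans (by exact_mod_cast hL) hI, fun γ hγ => ?_, fun v hv => ?_⟩
  · obtain ⟨h2, h3⟩ := Finset.mem_filter.1 hγ
    obtain ⟨h4, h5, h6⟩ := h1 γ h2
    rw [hGd] at h3
    obtain ⟨h7, h8, h9⟩ := h3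
    exact ⟨h4, h5, h7, h6, h8, h9⟩
  · rw [hF v hv]
    symm
    refine Finset.sum_filter_of_ne fun γ hγ hne => ?_
    have a1 : ρ γ ≠ 0 := left_ne_zero_of_mul hne
    have a2 := right_ne_zero_of_mul hne
    have a3 := left_ne_zero_of_mul a2
    have a4 : ∀ k, h γ k v ≠ 0 := fun k =>
      Finset.prod_ne_zero_iff.1 (right_ne_zero_of_mul a2) k (Finset.mem_univ k)
    obtain ⟨g1, g2, g3⟩ := hg γ hγ v hv a1 a4 a3
    have hv2 : v ∈ H35.CF.Fr Zc (PPc X W T) (b' γ) (n + 1 + 1) := by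
      rw [fr_sp Zc (PPc X W T) (b' γ) b (h1 γ hγ).2.1]
      exact hv
    rw [hGd]
    exact ⟨gdb_up G B X W T Zc hZE (τ γ) (e γ) (l γ) (b' γ) v hv2 g1 a3, g2, g3⟩

end H24.OW
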