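import Pool.Agent.H24.OW.Rch
import Pool.Agent.H82.S3.Lgi

/-!
# [H24 OW PHA] THEOREM OW (MP_b39724_nt, p = 2, every class), part (P): THE PHASE

`PK P K psi M`: `K ≤ gam_M` stable under conjugation in `SP S P`, `psi` additive on `K`, `psi = 0` on `K ∩ gam_(M+2)` (`K`: the elements which need all own letters; `psi` extends `psi^`).
* `th_add`: `u ↦ psi (cjl g (dl t x u))` is additive on `L ≤ gam_(M-1)` if `dl t x L ⊆ K`, `3 ≤ M` (`L = K` or `L = K_i`).
* `pp_val`: at a letter `t = il y`, `x = il s`: the value is `psi ⁅y, u⁆` if `u ∈ gam_M`.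
* `xi_bot`: on `K ∩ gam_(M+1)` the value is `psi ((g t) • u) - psi ((g [t,x]) • u)` (parts in `P`).
* `pha`: THE PHASE: if `RR τ x = 1 = RR (τ z) (mv u x)`, then `∑_j f_j (u_j) - ∑_v psi ⁅z_v, bk_v⁆ = ∑_(roots, BB) (f_j (u_j) + psi (Dj .. (u_j)))`, where `f_j` are any functions with
  `f_j (u_j) = - psi ⁅y_j, u_j⁆` at the letters `pp` which are not roots.
-/

set_option autoImplicit false

open scoped commutatorElement
open scoped Classical

noncomputable section

namespace H24.OW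

open H1.S3 H73.S3

open H71.S3 (cjl cjl_il cjl_mem cjl_gk)

variable {S P : Type} [Group S] [Group P] [MulDistribMulAction P S] {J V : Type}
  {R : Type} [AddCommGroup R]

variable (P) in
/-- the functional `psi` on the subgroup `K` -/
structure PK (K : Subgroup S) (psi : S → R) (M : ℕ) : Prop where
  st : ∀ (g : SP S P), ∀ u ∈ K, cjl g u ∈ K
  add : ∀ u ∈ K, ∀ v ∈ K, psi (u * v) = psi u + psi v
  le : K ≤ gm S M
  bot : ∀ u ∈ K, u ∈ gm S (M + 2) → psi u = 0

variable {K : Subgroup S} {psi : S → R} {M : ℕ}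

theorem PK.one (h : PK P K psi M) : psi 1 = 0 := by
  have h1 := h.add 1 (one_mem K) 1 (one_mem K)
  rw [mul_one] at h1
  exact left_eq_add.1 h1

theorem PK.inv (h : PK P K psi M) {u : S} (hu : u ∈ K) : psi u⁻¹ = -psi u := by
  have h1 := h.add u hu u⁻¹ (inv_mem hu)
  rw [mul_inv_cancel, h.one] at h1
  exact (neg_eq_of_add_eq_zero_right h1.symm).symm

theorem PK.nor (h : PK P K psi M) (s : S) {u : S} (hu : u ∈ K) : s * u * s⁻¹ ∈ K := by
  have h1 := h.st (il s) u hu
  rwa [il_cjl] at h1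

theorem PK.com (h : PK P K psi M) (s : S) {u : S} (hu : u ∈ K) : ⁅s, u⁆ ∈ K := by
  rw [commutatorElement_def]
  exact mul_mem (h.nor s hu) (inv_mem hu)

theorem PK.com' (h : PK P K psi M) (s : S) {u : S} (hu : u ∈ K) : ⁅u, s⁆ ∈ K := by
  rw [← commutatorElement_inv]
  exact inv_mem (h.com s hu)

theorem PK.comm (h : PK P K psi M) {u v : S} (hu : u ∈ K) (hv : v ∈ K) : psi ⁅u, v⁆ = 0 := by
  rw [commutatorElement_def, h.add _ (mul_mem (mul_mem hu hv) (inv_mem hu)) _ (inv_mem hv), h.inv hv,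
    h.add _ (mul_mem hu hv) _ (inv_mem hu), h.inv hu, h.add _ hu _ hv]
  abel

theorem PK.conj (h : PK P K psi M) (s : S) {u : S} (hu : u ∈ K) (hu1 : u ∈ gm S (M + 1)) :
    psi (s * u * s⁻¹) = psi u := by
  have h1 : s * u * s⁻¹ = ⁅s, u⁆ * u := by
    rw [commutatorElement_def]
    group
  rw [h1, h.add _ (h.com s hu) _ hu, h.bot _ (h.com s hu) (gm_comm' (M + 1) hu1), zero_add]

theorem smul_k (h : PK P K psi M) (g : P) {u : S} (hu : u ∈ K) : g • u ∈ K := by
  have h1 := h.st (SemidirectProduct.inr g) u hu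
  have h2 : cjl (SemidirectProduct.inr g : SP S P) u = g • u := by
    unfold cjl
    rw [SemidirectProduct.left_inr, SemidirectProduct.right_inr, inv_one, one_mul, mul_one]
  rwa [h2] at h1

theorem PK.cjl (h : PK P K psi M) (g : SP S P) {u : S} (hu : u ∈ K) (hu1 : u ∈ gm S (M + 1)) :
    psi (cjl g u) = psi (g.right • u) := by
  unfold H71.S3.cjl
  exact h.conj _ (smul_k h g.right hu) (gm_smul _ hu1)

/-- additivity -/
theorem th_add (h : PK P K psi M) (hM : 3 ≤ M) {L : Subgroup S}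
    (hLM : L ≤ gm S (M - 1)) (t x : SP S P) (hD : ∀ u ∈ L, dl t x u ∈ K) (g : SP S P) {u v : S} (hu : u ∈ L)
    (hv : v ∈ L) : psi (cjl g (dl t x (u * v))) = psi (cjl g (dl t x u)) + psi (cjl g (dl t x v)) := by
  have h1 : dl t x (u * v) = ⁅cjl t u, dl t x v⁆ * (dl t x v * dl t x u) := by
    unfold dl
    rw [mul_inv_rev, cjl_mul, cjl_mul, commutatorElement_def]
    group
  have h2 : cjl t u ∈ gm S (M - 1) := cjl_mem t (hLM hu)
  have h3 : ⁅cjl t u, dl t x v⁆ ∈ K := h.com _ (hD v hv)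
  have h4 : ⁅cjl t u, dl t x v⁆ ∈ gm S (M + 2) := by
    have h5 := H82.S3.gm_comm2 (S := S) (i := M - 1) (j := M) (by omega) (by omega) h2 (h.le (hD v hv))
    exact H82.S3.gm_le (by omega) h5
  rw [h1, cjl_mul, h.add _ (h.st _ _ h3) _ (h.st _ _ (mul_mem (hD v hv) (hD u hu))),
    h.bot _ (h.st _ _ h3) (cjl_mem (P := P) g h4), zero_add, cjl_mul, h.add _ (h.st _ _ (hD v hv)) _ (h.st _ _ (hD u hu)),
    add_comm]

theorem dl_il_eq (y s u : S) : dl (il y : SP S P) (il s) u = ⁅y, u⁆ * ⁅u, ⁅y, s⁆⁆ := by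
  unfold dl
  have h1 : ⁅(il y : SP S P), (il s : SP S P)⁆ = il ⁅y, s⁆ := by
    rw [commutatorElement_def, commutatorElement_def, il_mul, il_mul, il_mul, il_inv, il_inv]
  rw [h1, il_cjl, il_cjl, commutatorElement_def u, commutatorElement_def y u]
  group

/-- the value at a letter of `S` -/
theorem pp_val (h : PK P K psi M) (hM : 1 ≤ M) (y s a : S) {u : S} (hu : u ∈ gm S M) (h1 : ⁅y, u⁆ ∈ K)
    (h2 : dl (il y : SP S P) (il s) u ∈ K) : psi (cjl (il a : SP S P) (dl (il y : SP S P) (il s) u)) = psi ⁅y, u⁆ := by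
  rw [dl_il_eq] at h2 ⊢
  have h3 : ⁅u, ⁅y, s⁆⁆ ∈ K := by
    have h4 := mul_mem (inv_mem h1) h2
    rwa [inv_mul_cancel_left] at h4
  have h5 : ⁅u, ⁅y, s⁆⁆ ∈ gm S (M + 2) := gm_two M hM hu (gm_comm 1 (by
    rw [gm_one]
    exact Subgroup.mem_top y))
  rw [il_cjl, h.conj a h2 (mul_mem (gm_comm' M hu) (gm_anti _ h5)), h.add _ h1 _ h3, h.bot _ h3 h5, add_zero]

/-- the value on `gam_(M+1)` -/
theorem xi_bot (h : PK P K psi M) (t x g : SP S P) {u : S} (hu : u ∈ K) (hu1 : u ∈ gm S (M + 1)) :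
    psi (cjl g (dl t x u)) = psi ((g * t).right • u) - psi ((g * ⁅t, x⁆).right • u) := by
  unfold dl
  rw [cjl_mul, cjl_cjl, cjl_cjl, h.add _ (h.st _ _ hu) _ (h.st _ _ (inv_mem hu)), cjl_inv, h.inv (h.st _ _ hu),
    h.cjl _ hu hu1, h.cjl _ hu hu1, sub_eq_add_neg]

/-- the part in `P` of the product of the earlier places -/
theorem pf_rt (X : AD S P J V) (τ : V → S) (x : J → SP S P) (hr : ∀ v ∈ X.l, (X.bk x v).right = 1) (v : V) :
    (pf X τ x v).right = 1 := by
  unfold pf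
  have h1 : ∀ l : List V, (∀ w ∈ l, (X.bk x w).right = 1) →
      ((l.map fun w => cj (τ w) (X.bk x w)).prod).right = 1 := by
    intro l
    induction l with
    | nil => exact fun _ => rfl
    | cons w l ih =>
      intro hl
      rw [List.map_cons, List.prod_cons, SemidirectProduct.mul_right,
        ih fun w' hw' => hl w' (List.mem_cons_of_mem _ hw'), mul_one]
      unfold cj il
      rw [SemidirectProduct.mul_right, SemidirectProduct.mul_right, SemidirectProduct.inv_right,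
        SemidirectProduct.right_inl, hl w List.mem_cons_self]
      group
  refine h1 _ fun w hw => hr w ?_
  exact (List.takeWhile_sublist _).subset hw

/-- an element with trivial part in `P` -/
theorem il_lf {x : SP S P} (h : x.right = 1) : x = il x.left := by
  refine SemidirectProduct.ext rfl ?_
  rw [h]
  rfl

/-- THE PHASE -/
theorem pha (X : AD S P J V) (h : PK P K psi M) (hM : 3 ≤ M) (hnd : X.l.Nodup)
    (hbn : ∀ v ∈ X.l, (X.bl v).Nodup) (hbp : ∀ v, ∀ j ∈ X.bl v, X.pj j = v)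
    (hjl : ∀ j ∈ X.Jf, X.pj j ∈ X.l ∧ j ∈ X.bl (X.pj j)) (hpb : ∀ j ∈ X.Jf, X.pp j → X.bl (X.pj j) = [j])
    (hpt : ∀ j ∈ X.Jf, X.pp j → X.t j = il (X.y j)) (τ z : V → S) (x : J → SP S P) (u : X.Jf → S)
    (hr : ∀ v ∈ X.l, (X.bk x v).right = 1) (hx : ∀ j ∈ X.Jf, X.pp j → (x j).right = 1)
    (rt : J → Prop) (f : X.Jf → S → R)
    (hu : ∀ j : X.Jf, ¬rt j → u j ∈ K) (hrt : ∀ j : X.Jf, rt j → dl (X.t j) (x j) (u j) ∈ K)
    (hf : ∀ j : X.Jf, X.pp j → ¬rt j → f j (u j) = -psi ⁅X.y j, u j⁆)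
    (hz2 : ∀ v ∈ X.l, z v ∈ gm S 2)
    (hz : ∀ v ∈ X.l, ⁅z v, (X.bk x v).left⁆ ∈ K ∧ ⁅z v, (X.bk x v).left⁆ ∈ gm S (M + 1))
    (h1 : X.RR τ x = 1) (h2 : X.RR (fun v => τ v * z v) (X.mv u x) = 1) :
    ∑ j : X.Jf, f j (u j) - (X.l.map fun v => psi ⁅z v, (X.bk x v).left⁆).sum =
      ∑ j : X.Jf, if X.pp j ∧ ¬rt j then 0 else f j (u j) + psi (Dj X τ x j (u j)) := by
  have hdk : ∀ (t y : SP S P) (w : S), w ∈ K → dl t y w ∈ K := fun t y w hw =>
    mul_mem (h.st _ _ hw) (h.st _ _ (inv_mem hw))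
  have hzb : ∀ v ∈ X.l, zb (X.bk x v) (z v) = ⁅z v, (X.bk x v).left⁆ := by
    intro v hv
    unfold zb
    have e := il_lf (hr v hv)
    rw [e, il_cjl, commutatorElement_def]
    group
    rfl
  have key := rch (psi := psi) X h.st h.add hnd hbn hbp hjl τ z x u
    (fun j => by
      by_cases hj : rt j
      · exact hrt j hj
      · exact hdk _ _ _ (hu j hj))
    (fun v hv => by
      rw [hzb v hv]
      exact (hz v hv).1)
    (fun v hv g w hw => by
      have e1 : z v * w * (z v)⁻¹ = ⁅z v, w⁆ * w := by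
        rw [commutatorElement_def]
        group
      have e2 : ⁅z v, w⁆ ∈ gm S (M + 2) := by
        rw [← commutatorElement_inv]
        exact inv_mem (gm_two M (by omega) (h.le hw) (hz2 v hv))
      rw [← cjl_cjl, il_cjl, e1, cjl_mul, h.add _ (h.st _ _ (h.com _ hw)) _ (h.st _ _ hw),
        h.bot _ (h.st _ _ (h.com _ hw)) (cjl_mem g e2), zero_add])
    h1 h2
  have h3 : (X.l.map fun v => psi (cjl (pf X τ x v * il (τ v)) (zb (X.bk x v) (z v)))).sum =
      (X.l.map fun v => psi ⁅z v, (X.bk x v).left⁆).sum := by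
    congr 1
    refine List.map_congr_left fun v hv => ?_
    rw [hzb v hv, h.cjl _ (hz v hv).1 (hz v hv).2]
    have e : (pf X τ x v * il (τ v)).right = 1 := by
      rw [SemidirectProduct.mul_right, pf_rt X τ x hr v, one_mul]
      rfl
    rw [e, one_smul]
  rw [h3] at key
  have h4 : ∑ j : X.Jf, (if X.pp j ∧ ¬rt j then 0 else f j (u j) + psi (Dj X τ x j (u j))) =
      ∑ j : X.Jf, (f j (u j) + psi (Dj X τ x j (u j))) := by
    refine Finset.sum_congr rfl fun j _ => ?_
    split_ifs with hj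
    · have e1 := hf j hj.1 hj.2
      have e2 : cn X τ x j = il (cn X τ x j).left := by
        refine il_lf ?_
        unfold cn
        rw [SemidirectProduct.mul_right, SemidirectProduct.mul_right, pf_rt X τ x hr, one_mul,
          hpb j j.2 hj.1]
        have e3 : pre [(j : J)] j = [] := by
          unfold pre
          rw [List.takeWhile_cons, decide_eq_false (fun h => h rfl)]
          rfl
        rw [e3]
        show (1 : P) * (1 : SP S P).right = 1
        rw [one_mul]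
        rfl
      have e4 : psi (Dj X τ x j (u j)) = psi ⁅X.y j, u j⁆ := by
        unfold Dj
        have e5 := hpt j j.2 hj.1
        have e6 := il_lf (hx j j.2 hj.1)
        have e7 := hdk (X.t j) (x j) _ (hu j hj.2)
        rw [e2, e5, e6]
        rw [e5, e6] at e7
        exact pp_val h (by omega) _ _ _ (h.le (hu j hj.2)) (h.com _ (hu j hj.2)) e7
      rw [e1, e4, neg_add_cancel]
    · rfl
  rw [h4, Finset.sum_add_distrib, sub_eq_add_neg]
  congr 1
  exact (eq_neg_of_add_eq_zero_left key).symm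

end H24.OW
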